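import Pool.Agent.helper53.SP4.Spec2
import Pool.Agent.helper14.SP4.S4T

/-! Row sp4:S5T: the isomorphism with `PSp(4, F)` with its matrices. -/

set_option autoImplicit false

namespace Pool.Agent.SP4

open Pool.Agent.GS

theorem S5T (hS4B : S4B_stmt) : S5T_stmt := by
  intro F _ _
  have hZ := (hS4B F).2.2.2.2.2.2.2.2.2.2.1
  have hinj := S4T_inj F
  have hsurj := S4T_surj F
  have hcen : ∀ c : Matrix.symplecticGroup (Fin 2) F, c ∈ Subgroup.center (Matrix.symplecticGroup (Fin 2) F) → c = 1 := by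
    intro c hc
    obtain ⟨a, rfl⟩ := hsurj c
    have h1 : a = 1 := by
      apply hZ
      intro g
      apply hinj
      rw [map_mul, map_mul]
      exact (Subgroup.mem_center_iff.1 hc (S4T_phi F g)).symm
    rw [h1, map_one]
  have hmk : ∀ c c' : Matrix.symplecticGroup (Fin 2) F, (QuotientGroup.mk c : PSp 2 F) = QuotientGroup.mk c' → c = c' := by
    intro c c' h
    have h1 := hcen _ (QuotientGroup.eq.1 h)
    exact (inv_mul_eq_one.1 h1)
  have hbij : Function.Bijective ((QuotientGroup.mk' (Subgroup.center (Matrix.symplecticGroup (Fin 2) F))).comp (S4T_phi F)) := by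
    constructor
    · intro a b h
      exact hinj (hmk _ _ h)
    · intro c
      obtain ⟨c', rfl⟩ := QuotientGroup.mk_surjective c
      obtain ⟨a, rfl⟩ := hsurj c'
      exact ⟨a, rfl⟩
  refine ⟨MulEquiv.ofBijective _ hbij, MulEquiv.ofBijective (S4T_phi F) ⟨hinj, hsurj⟩, S4T_L F, S4T_B F,
    fun g => rfl, fun g w => S4T_phi_apply F g w, fun t => ⟨?_, ?_⟩⟩
  · rintro ⟨v, hv, ht⟩
    refine ⟨S4T_phi F t, S4T_L F v, fun h => hv ((S4T_L F).map_eq_zero_iff.1 h), rfl, fun w => ?_⟩
    rw [S4T_phi_apply, ht, map_add, map_smul, LinearEquiv.apply_symm_apply, S4T_B']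
  · rintro ⟨g, v, hv, ht, hg⟩
    have h1 : S4T_phi F t = g := hmk _ _ ht
    refine ⟨(S4T_L F).symm v, fun h => hv ((S4T_L F).symm.map_eq_zero_iff.1 h), fun w => ?_⟩
    have h2 := S4T_phi_apply F t (S4T_L F w)
    rw [h1, hg, LinearEquiv.symm_apply_apply] at h2
    apply (S4T_L F).injective
    rw [← h2, map_add, map_smul, LinearEquiv.apply_symm_apply, ← S4T_B, LinearEquiv.apply_symm_apply]

end Pool.Agent.SP4
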